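import Pool.Agent.Helper60.SB.Defs2

/-!
Module E: from the counting theorem to entropy numbers.
-/

open Finset MeasureTheory
open scoped ENNReal Real

namespace Pool.Agent.Helper16.SB

open Pool.Agent.Helper60.SB

instance tor1_finite : IsFiniteMeasure tor1 := by
  unfold tor1
  refine Measure.smul_finite _ ?_
  rw [Ne, ENNReal.inv_eq_top, ENNReal.ofReal_eq_zero, not_le]
  exact Real.two_pi_pos

theorem tor1_ball_pos {x r : ℝ} (hr : 0 < r) (h : Metric.ball x r ⊆ Set.Ioo 0 (2 * π)) :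
    0 < tor1 (Metric.ball x r) := by
  unfold tor1
  rw [Measure.smul_apply, smul_eq_mul, Measure.restrict_apply Metric.isOpen_ball.measurableSet,
    Set.inter_eq_left.2 (h.trans Set.Ioo_subset_Ico_self), Real.volume_ball]
  refine ENNReal.mul_pos ?_ ?_
  · rw [Ne, ENNReal.inv_eq_zero]
    exact ENNReal.ofReal_ne_top
  · rw [Ne, ENNReal.ofReal_eq_zero, not_le]
    linarith

/-- nonempty open subsets of the open cube have positive measure -/
theorem tor_pos {d : ℕ} {U : Set (Fin d → ℝ)} (hU : IsOpen U)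
    (hsub : ∀ x ∈ U, ∀ i, x i ∈ Set.Ioo 0 (2 * π)) {x₀ : Fin d → ℝ} (hx : x₀ ∈ U) :
    0 < tor d U := by
  obtain ⟨r, hr, hb⟩ := Metric.isOpen_iff.1 hU x₀ hx
  have hbi : ∀ i, Metric.ball (x₀ i) r ⊆ Set.Ioo 0 (2 * π) := by
    intro i y hy
    have h1 : Function.update x₀ i y ∈ Metric.ball x₀ r := by
      rw [ball_pi _ hr, Set.mem_univ_pi]
      intro j
      by_cases hj : j = i
      · subst hj
        rw [Function.update_self]
        exact hy
      · rw [Function.update_of_ne hj]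
        exact Metric.mem_ball_self hr
    have h2 := hsub _ (hb h1) i
    rwa [Function.update_self] at h2
  refine lt_of_lt_of_le ?_ (measure_mono hb)
  rw [ball_pi _ hr]
  unfold tor
  rw [Measure.pi_pi]
  exact CanonicallyOrderedAdd.prod_pos.2 fun i _ => tor1_ball_pos hr (hbi i)

/-- an almost everywhere bound for a continuous function is a bound in the open cube -/
theorem bound_of_ae {d : ℕ} {𝕜 : Type} [RCLike 𝕜] (H : (Fin d → ℝ) → 𝕜) (hH : Continuous H)
    (b : ℝ) (h : ∀ᵐ x ∂(tor d), (∀ i, x i ∈ Set.Ioo 0 (2 * π)) → ‖H x‖ ≤ b) {x₀ : Fin d → ℝ}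
    (hx : ∀ i, x₀ i ∈ Set.Ioo 0 (2 * π)) : ‖H x₀‖ ≤ b := by
  by_contra hcon
  rw [not_le] at hcon
  set U : Set (Fin d → ℝ) := {x | b < ‖H x‖} ∩ Set.pi Set.univ (fun _ => Set.Ioo 0 (2 * π)) with hUd
  have hU : IsOpen U :=
    (isOpen_lt continuous_const hH.norm).inter
      (isOpen_set_pi Set.finite_univ fun _ _ => isOpen_Ioo)
  have hpos : 0 < tor d U := by
    refine tor_pos hU ?_ (x₀ := x₀) ⟨hcon, fun i _ => hx i⟩
    intro x hx' i
    exact hx'.2 i (Set.mem_univ i)
  have hzero : tor d U = 0 := by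
    refine measure_mono_null ?_ (ae_iff.1 h)
    intro x hx' hbad
    exact absurd (hbad fun i => hx'.2 i (Set.mem_univ i)) (not_le.2 hx'.1)
  exact hpos.ne' hzero

theorem pt_mem (T : ℕ) (x : Fin (2 ^ T)) : pt T x ∈ Set.Ioo (0 : ℝ) 1 := by
  unfold pt
  have h2 : (0 : ℝ) < 2 ^ T := by positivity
  have h1 : ((x : ℕ) : ℝ) + 1 ≤ 2 ^ T := by
    have := x.2
    exact_mod_cast this
  have h0 : (0 : ℝ) ≤ ((x : ℕ) : ℝ) := Nat.cast_nonneg _
  constructor
  · positivity
  · rw [div_lt_one h2]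
    linarith

theorem bxp_eq {e m : ℕ} (u : ℝ → ℝ) (R : Box e m) (x : Fin (e + 2) → ℝ)
    (hx : ∀ i, x i ∈ Set.Ioo 0 (2 * π)) : bxp u R x = bx u R (fun j => x j / (2 * π)) := by
  unfold bxp bx ub
  refine Finset.prod_congr rfl fun j _ => ?_
  have h1 : Int.fract (x j / (2 * π)) = x j / (2 * π) := by
    rw [Int.fract_eq_self]
    have h2 := (hx j).1
    have h3 := (hx j).2
    have h4 := Real.two_pi_pos
    constructor
    · positivity
    · rw [div_lt_one h4]
      exact h3
  rw [h1]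

theorem continuous_bx {e m : ℕ} (u : ℝ → ℝ) (hu : Continuous u) (R : Box e m) :
    Continuous (bx u R) := by
  unfold bx
  refine continuous_finsetProd _ fun j _ => hu.comp ?_
  exact ((continuous_const.mul (continuous_apply j)).sub continuous_const)

theorem card_box_ge (e m : ℕ) : m ^ (e + 1) ≤ Fintype.card (Box e m) := by
  rw [Fintype.card_sigma]
  calc m ^ (e + 1) = Fintype.card (Fin (e + 1) → Fin m) := by
        rw [Fintype.card_fun, Fintype.card_fin, Fintype.card_fin]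
    _ = ∑ t : Fin (e + 1) → Fin m, 1 := by rw [Finset.sum_const, smul_eq_mul, mul_one]; rfl
    _ ≤ _ := by
      refine Finset.sum_le_sum fun t _ => ?_
      rw [Fintype.card_pi]
      refine Nat.one_le_iff_ne_zero.2 (Finset.prod_ne_zero_iff.2 fun j _ => ?_)
      rw [Fintype.card_fin]
      exact (Nat.pow_pos two_pos).ne'

/-- lower bound for the `n`-th entropy number of a set containing many signed sums -/
theorem entropy_ge (e : ℕ) (u : ℝ → ℝ) (hu : ContDiff ℝ (⊤ : ℕ∞) u)
    (hcore : ∀ ca : ℝ, 0 < ca → ∃ c > 0, ∃ m₀ : ℕ, ∀ m ≥ m₀,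
      ∀ a : Box e m → ℝ, (∀ R, 0 ≤ a R) → (∀ R, a R ≤ 1) →
      ca * Fintype.card (Box e m) ≤ ∑ R, a R →
      ∀ g : (Fin (e + 2) → ℝ) → ℝ,
        ((univ.filter fun α : Box e m → Bool =>
            ∀ x : Fin (e + 2) → Fin (2 ^ ((e + 2) * m + 5)),
              |∑ R, a R * sg (α R) * bx u R (fun j => pt ((e + 2) * m + 5) (x j)) -
                g (fun j => pt ((e + 2) * m + 5) (x j))| ≤
              c * (m : ℝ) ^ (((e : ℝ) + 2) / 2)).card : ℝ) ≤
          Real.exp (-c * Fintype.card (Box e m)) * 2 ^ Fintype.card (Box e m))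
    (𝕜 : Type) [RCLike 𝕜] :
    ∃ c > 0, ∃ m₀ : ℕ, ∀ m ≥ m₀, ∀ (F : Set ((Fin (e + 2) → ℝ) → 𝕜)) (l : ℝ), 0 < l →
      (open scoped Classical in (1 / 2 : ℝ) * 2 ^ Fintype.card (Box e m) ≤
        ((univ.filter fun β : Box e m → Bool =>
          (fun x => ((l * ∑ R, sg (β R) * bxp u R x : ℝ) : 𝕜)) ∈ F).card : ℝ)) →
      ∀ n : ℕ, (n : ℝ) ≤ c * Fintype.card (Box e m) →
        ENNReal.ofReal (c * l * (m : ℝ) ^ (((e : ℝ) + 2) / 2)) ≤ entropyNumber n F := by
  classical
  obtain ⟨c1, hc1, m1, hcount⟩ := hcore 1 one_pos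
  refine ⟨c1 / 2, by positivity, max (max m1 1) (⌈2 / c1⌉₊), ?_⟩
  intro m hm F l hl hF n hn
  have hm1 : m1 ≤ m := (le_max_left _ _).trans ((le_max_left _ _).trans hm)
  have hm2 : 1 ≤ m := (le_max_right _ _).trans ((le_max_left _ _).trans hm)
  have hm3 : 2 / c1 ≤ m := (Nat.le_ceil _).trans (by exact_mod_cast (le_max_right _ _).trans hm)
  set N := Fintype.card (Box e m) with hN
  set M : ℝ := (m : ℝ) ^ (((e : ℝ) + 2) / 2) with hM
  have hMpos : 0 < M := Real.rpow_pos_of_pos (by exact_mod_cast hm2) _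
  have hNm : (m : ℝ) ≤ N := by
    have h1 : m ≤ N := by
      calc m = m ^ 1 := (pow_one m).symm
        _ ≤ m ^ (e + 1) := Nat.pow_le_pow_right hm2 (by omega)
        _ ≤ N := card_box_ge e m
    exact_mod_cast h1
  have hcN : 2 ≤ c1 * N := by
    have h1 : 2 / c1 ≤ N := hm3.trans hNm
    rw [div_le_iff₀ hc1] at h1
    linarith
  unfold entropyNumber
  refine le_sInf ?_
  rintro ε ⟨hε, y, hy, hcov⟩
  by_contra hcon
  rw [not_le] at hcon
  have hεtop : ε ≠ ⊤ := ne_top_of_lt hcon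
  set b := ε.toReal with hb
  have hεb : ε = ENNReal.ofReal b := (ENNReal.ofReal_toReal hεtop).symm
  have hb0 : 0 ≤ b := ENNReal.toReal_nonneg
  have hbc : b < c1 / 2 * l * M := by
    rw [hεb] at hcon
    exact (ENNReal.ofReal_lt_ofReal_iff (by positivity)).1 hcon
  -- the functions attached to sign patterns
  set f : (Box e m → Bool) → (Fin (e + 2) → ℝ) → 𝕜 :=
    fun β x => ((l * ∑ R, sg (β R) * bxp u R x : ℝ) : 𝕜) with hf
  set G : (Box e m → Bool) → (Fin (e + 2) → ℝ) → 𝕜 :=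
    fun β x => ((l * ∑ R, sg (β R) * bx u R (fun j => x j / (2 * π)) : ℝ) : 𝕜) with hG
  have hfG : ∀ β x, (∀ i, x i ∈ Set.Ioo 0 (2 * π)) → f β x = G β x := by
    intro β x hx
    simp only [hf, hG]
    congr 2
    exact Finset.sum_congr rfl fun R _ => by rw [bxp_eq u R x hx]
  have hGc : ∀ β, Continuous (G β) := by
    intro β
    simp only [hG]
    refine RCLike.continuous_ofReal.comp (continuous_const.mul ?_)
    refine continuous_finsetSum _ fun R _ => continuous_const.mul ?_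
    refine (continuous_bx u hu.continuous R).comp ?_
    exact continuous_pi fun j => (continuous_apply j).div_const _
  have hclose : ∀ β β' j, eLpNorm (f β - y j) ⊤ (tor (e + 2)) ≤ ε →
      eLpNorm (f β' - y j) ⊤ (tor (e + 2)) ≤ ε → ∀ x : Fin (e + 2) → ℝ,
      (∀ i, x i ∈ Set.Ioo 0 (2 * π)) → ‖G β x - G β' x‖ ≤ 2 * b := by
    intro β β' j h1 h2 x hx
    refine bound_of_ae (fun x => G β x - G β' x) ((hGc β).sub (hGc β')) (2 * b) ?_ hx
    rw [eLpNorm_exponent_top] at h1 h2
    filter_upwards [ae_le_eLpNormEssSup (f := f β - y j) (μ := tor (e + 2)),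
      ae_le_eLpNormEssSup (f := f β' - y j) (μ := tor (e + 2))] with z hz hz' hzi
    have e1 : ‖(f β - y j) z‖ ≤ b := by
      have := hz.trans h1
      rw [hεb, ← ofReal_norm] at this
      exact (ENNReal.ofReal_le_ofReal_iff hb0).1 this
    have e2 : ‖(f β' - y j) z‖ ≤ b := by
      have := hz'.trans h2
      rw [hεb, ← ofReal_norm] at this
      exact (ENNReal.ofReal_le_ofReal_iff hb0).1 this
    rw [← hfG β z hzi, ← hfG β' z hzi]
    have e3 : f β z - f β' z = (f β - y j) z - (f β' - y j) z := by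
      simp only [Pi.sub_apply]
      ring
    rw [e3]
    calc ‖(f β - y j) z - (f β' - y j) z‖ ≤ ‖(f β - y j) z‖ + ‖(f β' - y j) z‖ := norm_sub_le _ _
      _ ≤ 2 * b := by linarith
  set K : ℝ := Real.exp (-c1 * N) * 2 ^ N with hK
  -- each ball contains few of the functions
  have hball : ∀ j, (((univ.filter fun β : Box e m → Bool =>
      eLpNorm (f β - y j) ⊤ (tor (e + 2)) ≤ ε).card : ℕ) : ℝ) ≤ K := by
    intro j
    rcases Finset.eq_empty_or_nonempty (univ.filter fun β : Box e m → Bool =>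
      eLpNorm (f β - y j) ⊤ (tor (e + 2)) ≤ ε) with h | ⟨β₀, hβ₀⟩
    · rw [h, Finset.card_empty, Nat.cast_zero]
      positivity
    · rw [Finset.mem_filter] at hβ₀
      have hc := hcount m hm1 (fun _ => 1) (fun _ => zero_le_one) (fun _ => le_rfl)
        (by rw [Finset.sum_const, nsmul_eq_mul, mul_one, one_mul]; exact le_rfl)
        (fun z => ∑ R, sg (β₀ R) * bx u R z)
      refine le_trans ?_ hc
      refine Nat.cast_le.2 (Finset.card_le_card ?_)
      intro β hβ
      rw [Finset.mem_filter] at hβ ⊢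
      refine ⟨Finset.mem_univ _, ?_⟩
      intro x
      have hpt : ∀ i, 2 * π * pt ((e + 2) * m + 5) (x i) ∈ Set.Ioo 0 (2 * π) := by
        intro i
        have h1 := pt_mem ((e + 2) * m + 5) (x i)
        have h2 := Real.two_pi_pos
        constructor
        · exact mul_pos h2 h1.1
        · calc 2 * π * pt ((e + 2) * m + 5) (x i) < 2 * π * 1 :=
                mul_lt_mul_of_pos_left h1.2 h2
            _ = 2 * π := mul_one _
      have h1 := hclose β β₀ j hβ.2 hβ₀.2 (fun i => 2 * π * pt ((e + 2) * m + 5) (x i)) hpt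
      simp only [hG] at h1
      have h2 : (fun j => 2 * π * pt ((e + 2) * m + 5) (x j) / (2 * π)) =
          fun j => pt ((e + 2) * m + 5) (x j) := by
        funext j
        have := Real.two_pi_pos.ne'
        field_simp
      rw [h2, ← RCLike.ofReal_sub, RCLike.norm_ofReal, ← mul_sub, abs_mul, abs_of_pos hl] at h1
      have h3 : |∑ R, sg (β R) * bx u R (fun j => pt ((e + 2) * m + 5) (x j)) -
          ∑ R, sg (β₀ R) * bx u R (fun j => pt ((e + 2) * m + 5) (x j))| ≤ c1 * M := by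
        have h4 : l * |∑ R, sg (β R) * bx u R (fun j => pt ((e + 2) * m + 5) (x j)) -
          ∑ R, sg (β₀ R) * bx u R (fun j => pt ((e + 2) * m + 5) (x j))| ≤ l * (c1 * M) := by
          linarith
        exact le_of_mul_le_mul_left h4 hl
      simpa only [one_mul] using h3
  -- the union of the balls
  have htotal : ((univ.filter fun β : Box e m → Bool => f β ∈ F).card : ℝ) ≤ 2 ^ n * K := by
    have hsub : (univ.filter fun β : Box e m → Bool => f β ∈ F) ⊆
        (univ : Finset (Fin (2 ^ n))).biUnion (fun j => univ.filter fun β : Box e m → Bool =>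
          eLpNorm (f β - y j) ⊤ (tor (e + 2)) ≤ ε) := by
      intro β hβ
      rw [Finset.mem_filter] at hβ
      obtain ⟨j, hj⟩ := hcov (f β) hβ.2
      rw [Finset.mem_biUnion]
      exact ⟨j, Finset.mem_univ _, Finset.mem_filter.2 ⟨Finset.mem_univ _, hj⟩⟩
    calc ((univ.filter fun β : Box e m → Bool => f β ∈ F).card : ℝ)
        ≤ (((univ : Finset (Fin (2 ^ n))).biUnion (fun j => univ.filter fun β : Box e m → Bool =>
          eLpNorm (f β - y j) ⊤ (tor (e + 2)) ≤ ε)).card : ℝ) :=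
          Nat.cast_le.2 (Finset.card_le_card hsub)
      _ ≤ ((∑ j : Fin (2 ^ n), (univ.filter fun β : Box e m → Bool =>
          eLpNorm (f β - y j) ⊤ (tor (e + 2)) ≤ ε).card : ℕ) : ℝ) :=
          Nat.cast_le.2 Finset.card_biUnion_le
      _ = ∑ j : Fin (2 ^ n), (((univ.filter fun β : Box e m → Bool =>
          eLpNorm (f β - y j) ⊤ (tor (e + 2)) ≤ ε).card : ℕ) : ℝ) := Nat.cast_sum _ _
      _ ≤ ∑ _j : Fin (2 ^ n), K := Finset.sum_le_sum fun j _ => hball j
      _ = 2 ^ n * K := by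
        rw [Finset.sum_const, Finset.card_univ, Fintype.card_fin, nsmul_eq_mul]
        push_cast
        rfl
  have h1 : (1 / 2 : ℝ) * 2 ^ N ≤ 2 ^ n * K := by
    refine le_trans ?_ htotal
    refine hF.trans (le_of_eq ?_)
    congr 1
  have h2 : Real.exp (c1 * N) ≤ 2 * 2 ^ n := by
    have h3 : (0 : ℝ) < 2 ^ N := by positivity
    have h4 : (1 / 2 : ℝ) ≤ 2 ^ n * Real.exp (-c1 * N) := by
      rw [hK, ← mul_assoc] at h1
      exact le_of_mul_le_mul_right h1 h3
    have h5 : Real.exp (-c1 * N) * Real.exp (c1 * N) = 1 := by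
      rw [← Real.exp_add]
      simp
    have h6 := Real.exp_pos (c1 * N)
    calc Real.exp (c1 * N) = 2 * ((1 / 2) * Real.exp (c1 * N)) := by ring
      _ ≤ 2 * ((2 ^ n * Real.exp (-c1 * N)) * Real.exp (c1 * N)) := by gcongr
      _ = 2 * 2 ^ n := by rw [mul_assoc, h5, mul_one]
  have h3 : (2 : ℝ) * 2 ^ n ≤ Real.exp ((n + 1) * Real.log 2) := by
    rw [mul_comm ((n : ℝ) + 1), Real.exp_mul, Real.exp_log two_pos]
    rw [show ((n : ℝ) + 1) = ((n + 1 : ℕ) : ℝ) by push_cast; rfl, Real.rpow_natCast, pow_succ]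
    linarith
  have h4 := Real.exp_le_exp.1 (h2.trans h3)
  have h5 := Real.log_two_lt_d9
  have h6 : ((n : ℝ) + 1) * Real.log 2 ≤ (c1 / 2 * N + 1) * 0.7 := by
    have h7 : (0 : ℝ) ≤ n := Nat.cast_nonneg n
    have h8 : Real.log 2 ≤ 0.7 := by linarith
    have h9 := Real.log_pos one_lt_two
    calc ((n : ℝ) + 1) * Real.log 2 ≤ (c1 / 2 * N + 1) * Real.log 2 := by gcongr
      _ ≤ _ := by gcongr
  linarith

end Pool.Agent.Helper16.SB
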