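import Pool.Agent.Helper60.SB.Defs4
import Pool.Agent.Helper41.SB.L4

/-!
Module L14a of MP_7fc85e_an, stage 3A: asymptotics of the lower bounds for the classes `H`.
-/

open Finset MeasureTheory
open scoped ENNReal Real
open Pool.Agent.Helper60.SB

namespace Pool.Agent.Helper16.SB

theorem choose_m (c : ℝ) (hc : 0 < c) (K : ℕ) : ∃ n₀ : ℕ, ∀ n ≥ n₀, ∃ m : ℕ, K ≤ m ∧
    (n : ℝ) ≤ c * m * 2 ^ m ∧ c * m * 2 ^ m ≤ 4 * n ∧ Real.log n ≤ 2 * m := by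
  classical
  set K' : ℕ := max (max K 2) (⌈4 * Real.log c⌉₊) with hK'
  have hK1 : K ≤ K' := (le_max_left _ _).trans (le_max_left _ _)
  have hK2 : 2 ≤ K' := (le_max_right _ _).trans (le_max_left _ _)
  have hK3 : 4 * Real.log c ≤ K' := (Nat.le_ceil _).trans (by exact_mod_cast le_max_right _ _)
  refine ⟨⌈c * K' * 2 ^ K'⌉₊ + 1, fun n hn => ?_⟩
  have hn1 : c * K' * 2 ^ K' < n := by
    have h1 := Nat.le_ceil (c * K' * 2 ^ K')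
    have h2 : ((⌈c * K' * 2 ^ K'⌉₊ + 1 : ℕ) : ℝ) ≤ n := by exact_mod_cast hn
    push_cast at h2
    linarith
  have hn0 : (0 : ℝ) < n := by
    refine lt_of_le_of_lt ?_ hn1
    positivity
  have hex : ∃ m : ℕ, (n : ℝ) ≤ c * m * 2 ^ m := by
    obtain ⟨m, hm⟩ := exists_nat_ge ((n : ℝ) / c)
    refine ⟨m, ?_⟩
    rw [div_le_iff₀ hc] at hm
    calc (n : ℝ) ≤ m * c := hm
      _ = c * m * 1 := by ring
      _ ≤ c * m * 2 ^ m := by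
        gcongr
        exact one_le_pow₀ (by norm_num)
  have hspec := Nat.find_spec hex
  have hmin := fun k => Nat.find_min hex (m := k)
  set m := Nat.find hex with hm
  have hKm : K' < m := by
    by_contra hcon
    push Not at hcon
    have : c * m * 2 ^ m ≤ c * K' * 2 ^ K' := by
      gcongr
      norm_num
    linarith
  obtain ⟨q, hq⟩ : ∃ q, m = q + 1 := ⟨m - 1, by omega⟩
  have hq1 : c * q * 2 ^ q < n := not_le.1 (hmin q (by omega))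
  have hq2 : (1 : ℝ) ≤ q := by
    have : 1 ≤ q := by omega
    exact_mod_cast this
  have hm1 : (1 : ℝ) ≤ m := by
    have : 1 ≤ m := by omega
    exact_mod_cast this
  have hmK : (K' : ℝ) ≤ m := by exact_mod_cast hKm.le
  refine ⟨m, by omega, hspec, ?_, ?_⟩
  · have : c * m * 2 ^ m ≤ 4 * (c * q * 2 ^ q) := by
      rw [hq]
      push_cast
      rw [pow_succ]
      have h3 : 0 ≤ c * 2 ^ q * ((q : ℝ) - 1) := by
        have : 0 ≤ (q : ℝ) - 1 := by linarith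
        positivity
      nlinarith
    linarith
  · have h1 : Real.log n ≤ Real.log (c * m * 2 ^ m) := Real.log_le_log hn0 hspec
    have h2 : Real.log (c * m * 2 ^ m) = Real.log c + Real.log m + m * Real.log 2 := by
      rw [Real.log_mul (by positivity) (by positivity), Real.log_mul hc.ne' (by positivity),
        Real.log_pow]
    have h3 : Real.log m ≤ m - 1 := Real.log_le_sub_one_of_pos (by linarith)
    have h4 : Real.log 2 ≤ 0.7 := by linarith [Real.log_two_lt_d9]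
    have h5 : (m : ℝ) * Real.log 2 ≤ m * 0.7 := mul_le_mul_of_nonneg_left h4 (by linarith)
    rw [h2] at h1
    linarith

/-- the lower estimate of `2^(-r m)` -/
theorem pow_lower (c r : ℝ) (hc : 0 < c) (hr : 0 < r) (n m : ℕ) (hm : 1 ≤ m) (hn : 1 ≤ n)
    (h : c * m * 2 ^ m ≤ 4 * n) :
    (c / 4) ^ r * (m : ℝ) ^ r * (n : ℝ) ^ (-r) ≤ (2 : ℝ) ^ (-(r * m)) := by
  have hm0 : (0 : ℝ) < m := by exact_mod_cast hm
  have hn0 : (0 : ℝ) < n := by exact_mod_cast hn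
  have h1 : (c / 4 * m * 2 ^ m) ≤ n := by linarith
  have h2 : (c / 4 * m * 2 ^ m) ^ r ≤ (n : ℝ) ^ r :=
    Real.rpow_le_rpow (by positivity) h1 hr.le
  rw [Real.mul_rpow (by positivity) (by positivity), Real.mul_rpow (by positivity)
    (by positivity)] at h2
  have h3 : ((2 : ℝ) ^ m) ^ r = (2 : ℝ) ^ (r * m) := by
    rw [← Real.rpow_natCast, ← Real.rpow_mul (by norm_num)]
    congr 1
    ring
  rw [h3] at h2
  rw [Real.rpow_neg hn0.le, Real.rpow_neg (by norm_num), ← div_eq_mul_inv,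
    div_le_iff₀ (by positivity), inv_mul_eq_div, le_div_iff₀ (by positivity)]
  exact h2

theorem log_upper (s : ℝ) (hs : 0 ≤ s) (n m : ℕ) (hn : 1 ≤ n) (h : Real.log n ≤ 2 * m) :
    Real.log n ^ s ≤ 2 ^ s * (m : ℝ) ^ s := by
  have h0 : 0 ≤ Real.log n := Real.log_nonneg (by exact_mod_cast hn)
  rw [← Real.mul_rpow (by norm_num) (by positivity)]
  exact Real.rpow_le_rpow h0 h hs

theorem asym_H_small (e : ℕ) (he : 1 ≤ e) (r : ℝ) (hr : 0 < r) (hr2 : r < 1 / 2)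
    (E : ℕ → ℝ≥0∞) (hE : ∃ c > 0, ∃ m₂ : ℕ, ∀ m₀ m₁ : ℕ, m₂ ≤ m₁ → m₀ ≤ m₁ → m₁ ≤ 2 * m₀ →
      (2 : ℝ) ^ m₁ * m₁ ≤ 1 * 2 ^ m₀ * ((m₁ - m₀ + 1 : ℕ) : ℝ) ^ 2 * (m₁ : ℝ) ^ e →
      ∀ n : ℕ, (n : ℝ) ≤ c * m₁ * 2 ^ m₁ →
        ENNReal.ofReal (c * (2 : ℝ) ^ ((1 / 2 - r) * m₀) * (2 : ℝ) ^ (-(m₁ : ℝ) / 2) *
          (Shp e m₀ m₁).card) ≤ E n) :
    ∃ c > 0, ∃ n₀ : ℕ, ∀ n ≥ n₀,
      ENNReal.ofReal (c * (n : ℝ) ^ (-r) * Real.log n ^ ((e : ℝ) + r)) ≤ E n := by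
  obtain ⟨c₁, hc₁, m₂, hE⟩ := hE
  obtain ⟨c', hc', hcard⟩ := Pool.Agent.Helper41.SB.card_Shp_lower e
  obtain ⟨n₀, hn₀⟩ := choose_m c₁ hc₁ (max m₂ 1)
  refine ⟨c₁ * c' * (c₁ / 4) ^ r / 2 ^ ((e : ℝ) + r), by positivity, max n₀ 1, ?_⟩
  intro n hn
  have hn1 : 1 ≤ n := (le_max_right _ _).trans hn
  obtain ⟨m, hm1, hm2, hm3, hm4⟩ := hn₀ n ((le_max_left _ _).trans hn)
  have hm0 : 1 ≤ m := (le_max_right _ _).trans hm1
  have hmr : (1 : ℝ) ≤ m := by exact_mod_cast hm0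
  have hcond : (2 : ℝ) ^ m * m ≤ 1 * 2 ^ m * ((m - m + 1 : ℕ) : ℝ) ^ 2 * (m : ℝ) ^ e := by
    have : (m : ℝ) ≤ (m : ℝ) ^ e := le_self_pow₀ hmr (by omega)
    have h2 : (2 : ℝ) ^ m * m ≤ 2 ^ m * (m : ℝ) ^ e := by gcongr
    simpa using h2
  have h1 := hE m m ((le_max_left _ _).trans hm1) le_rfl (by omega) hcond n hm2
  refine le_trans (ENNReal.ofReal_le_ofReal ?_) h1
  have h2 := hcard m m le_rfl (by omega)
  have h3 : c' * (m : ℝ) ^ e ≤ (Shp e m m).card := by simpa using h2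
  have h4 := pow_lower c₁ r hc₁ hr n m hm0 hn1 hm3
  have h5 := log_upper ((e : ℝ) + r) (by positivity) n m hn1 hm4
  have h6 : (m : ℝ) ^ ((e : ℝ) + r) = (m : ℝ) ^ e * (m : ℝ) ^ r := by
    rw [Real.rpow_add (by linarith), Real.rpow_natCast]
  have h7 : (2 : ℝ) ^ ((1 / 2 - r) * m) * (2 : ℝ) ^ (-(m : ℝ) / 2) = (2 : ℝ) ^ (-(r * m)) := by
    rw [← Real.rpow_add (by norm_num)]
    congr 1
    ring
  calc c₁ * c' * (c₁ / 4) ^ r / 2 ^ ((e : ℝ) + r) * (n : ℝ) ^ (-r) * Real.log n ^ ((e : ℝ) + r)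
      ≤ c₁ * c' * (c₁ / 4) ^ r / 2 ^ ((e : ℝ) + r) * (n : ℝ) ^ (-r) *
        (2 ^ ((e : ℝ) + r) * (m : ℝ) ^ ((e : ℝ) + r)) := by gcongr
    _ = c₁ * ((c₁ / 4) ^ r * (m : ℝ) ^ r * (n : ℝ) ^ (-r)) * (c' * (m : ℝ) ^ e) := by
        rw [h6]
        field_simp
    _ ≤ c₁ * (2 : ℝ) ^ (-(r * m)) * (Shp e m m).card := by gcongr
    _ = c₁ * (2 : ℝ) ^ ((1 / 2 - r) * m) * (2 : ℝ) ^ (-(m : ℝ) / 2) * (Shp e m m).card := by
        rw [← h7]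
        ring

theorem log_small (k : ℕ) : ∃ K : ℕ, ∀ m ≥ K, 2 * Nat.log 2 (m ^ k) ≤ m := by
  have h := tendsto_pow_const_div_const_pow_of_one_lt (2 * k) (r := (2 : ℝ)) (by norm_num)
  have h1 : ∀ᶠ m : ℕ in Filter.atTop, (m : ℝ) ^ (2 * k) / 2 ^ m < 1 :=
    h.eventually (gt_mem_nhds one_pos)
  obtain ⟨K, hK⟩ := Filter.eventually_atTop.1 h1
  refine ⟨max K 1, fun m hm => ?_⟩
  have h2 := hK m ((le_max_left _ _).trans hm)
  have hm1 : 1 ≤ m := (le_max_right _ _).trans hm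
  rw [div_lt_one (by positivity)] at h2
  have h3 : m ^ (2 * k) < 2 ^ m := by exact_mod_cast h2
  have h4 : 2 ^ Nat.log 2 (m ^ k) ≤ m ^ k := Nat.pow_log_le_self 2 (by positivity)
  have h5 : 2 ^ (2 * Nat.log 2 (m ^ k)) ≤ m ^ (2 * k) := by
    calc 2 ^ (2 * Nat.log 2 (m ^ k)) = (2 ^ Nat.log 2 (m ^ k)) ^ 2 := by
          rw [← pow_mul, mul_comm]
      _ ≤ (m ^ k) ^ 2 := Nat.pow_le_pow_left h4 2
      _ = m ^ (2 * k) := by rw [← pow_mul, mul_comm]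
  exact ((Nat.pow_lt_pow_iff_right (by norm_num)).1 (h5.trans_lt h3)).le

theorem asym_H_half (e : ℕ) (he : 2 ≤ e) (r : ℝ) (hr : r = 1 / 2)
    (E : ℕ → ℝ≥0∞) (hE : ∃ c > 0, ∃ m₂ : ℕ, ∀ m₀ m₁ : ℕ, m₂ ≤ m₁ → m₀ ≤ m₁ → m₁ ≤ 2 * m₀ →
      (2 : ℝ) ^ m₁ * m₁ ≤ 1 * 2 ^ m₀ * ((m₁ - m₀ + 1 : ℕ) : ℝ) ^ 2 * (m₁ : ℝ) ^ e →
      ∀ n : ℕ, (n : ℝ) ≤ c * m₁ * 2 ^ m₁ →
        ENNReal.ofReal (c * (2 : ℝ) ^ ((1 / 2 - r) * m₀) * (2 : ℝ) ^ (-(m₁ : ℝ) / 2) *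
          (Shp e m₀ m₁).card) ≤ E n) :
    ∃ c > 0, ∃ n₀ : ℕ, ∀ n ≥ n₀,
      ENNReal.ofReal (c * (n : ℝ) ^ (-(1 / 2 : ℝ)) * Real.log n ^ ((e : ℝ) + 1 / 2) *
        Real.log (Real.log n)) ≤ E n := by
  obtain ⟨c₁, hc₁, m₂, hE⟩ := hE
  obtain ⟨c', hc', hcard⟩ := Pool.Agent.Helper41.SB.card_Shp_lower e
  obtain ⟨K, hK⟩ := log_small (e - 1)
  obtain ⟨n₀, hn₀⟩ := choose_m c₁ hc₁ (max (max m₂ 2) K)
  refine ⟨c₁ * c' * (c₁ / 4) ^ (1 / 2 : ℝ) / (2 ^ ((e : ℝ) + 1 / 2) * 2), by positivity,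
    max n₀ 3, ?_⟩
  intro n hn
  have hn3 : 3 ≤ n := (le_max_right _ _).trans hn
  have hn1 : 1 ≤ n := by omega
  obtain ⟨m, hm1, hm2, hm3, hm4⟩ := hn₀ n ((le_max_left _ _).trans hn)
  have hmm2 : m₂ ≤ m := (le_max_left _ _).trans ((le_max_left _ _).trans hm1)
  have hm0 : 2 ≤ m := (le_max_right _ _).trans ((le_max_left _ _).trans hm1)
  have hKm : K ≤ m := (le_max_right _ _).trans hm1
  have hmr : (2 : ℝ) ≤ m := by exact_mod_cast hm0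
  have hl := hK m hKm
  set l : ℕ := Nat.log 2 (m ^ (e - 1)) with hldef
  set m₀ : ℕ := m - l with hm₀
  have hL : m - m₀ + 1 = l + 1 := by omega
  have hpow1 : 2 ^ l ≤ m ^ (e - 1) := Nat.pow_log_le_self 2 (by positivity)
  have hpow2 : m ^ (e - 1) < 2 ^ (l + 1) := Nat.lt_pow_succ_log_self (by norm_num) _
  have hcond : (2 : ℝ) ^ m * m ≤ 1 * 2 ^ m₀ * ((m - m₀ + 1 : ℕ) : ℝ) ^ 2 * (m : ℝ) ^ e := by
    rw [hL]
    have e1 : (2 : ℝ) ^ m = 2 ^ m₀ * 2 ^ l := by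
      rw [← pow_add]
      congr 1
      omega
    have e2 : (2 : ℝ) ^ l ≤ (m : ℝ) ^ (e - 1) := by exact_mod_cast hpow1
    have e3 : (m : ℝ) ^ e = (m : ℝ) ^ (e - 1) * m := by
      rw [← pow_succ]
      congr 1
      omega
    have e4 : (1 : ℝ) ≤ ((l + 1 : ℕ) : ℝ) ^ 2 := by
      refine one_le_pow₀ ?_
      push_cast
      linarith [Nat.cast_nonneg (α := ℝ) l]
    calc (2 : ℝ) ^ m * m = 2 ^ m₀ * 2 ^ l * m := by rw [e1]
      _ ≤ 2 ^ m₀ * (m : ℝ) ^ (e - 1) * m := by gcongr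
      _ = 1 * 2 ^ m₀ * 1 * (m : ℝ) ^ e := by rw [e3]; ring
      _ ≤ 1 * 2 ^ m₀ * ((l + 1 : ℕ) : ℝ) ^ 2 * (m : ℝ) ^ e := by gcongr
  have h1 := hE m₀ m hmm2 (by omega) (by omega) hcond n hm2
  refine le_trans (ENNReal.ofReal_le_ofReal ?_) h1
  have h2 := hcard m₀ m (by omega) (by omega)
  rw [hL] at h2
  have h4 := pow_lower c₁ (1 / 2) hc₁ (by norm_num) n m (by omega) hn1 hm3
  have h5 := log_upper ((e : ℝ) + 1 / 2) (by positivity) n m hn1 hm4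
  have h6 : (m : ℝ) ^ ((e : ℝ) + 1 / 2) = (m : ℝ) ^ e * (m : ℝ) ^ (1 / 2 : ℝ) := by
    rw [Real.rpow_add (by linarith), Real.rpow_natCast]
  have h7 : (2 : ℝ) ^ (-(m : ℝ) / 2) = (2 : ℝ) ^ (-(1 / 2 * (m : ℝ))) := by
    congr 1
    ring
  have hlog1 : 1 ≤ Real.log n := by
    rw [Real.le_log_iff_exp_le (by positivity)]
    have : (3 : ℝ) ≤ n := by exact_mod_cast hn3
    linarith [Real.exp_one_lt_d9]
  have hlogm : Real.log m ≤ ((l + 1 : ℕ) : ℝ) := by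
    have e1 : m ≤ m ^ (e - 1) := Nat.le_self_pow (by omega) m
    have e2 : (m : ℝ) ≤ 2 ^ (l + 1) := by exact_mod_cast (e1.trans hpow2.le)
    have e3 : Real.log m ≤ Real.log (2 ^ (l + 1)) := Real.log_le_log (by linarith) e2
    rw [Real.log_pow] at e3
    have e4 : Real.log 2 ≤ 1 := by linarith [Real.log_two_lt_d9]
    have e5 : ((l + 1 : ℕ) : ℝ) * Real.log 2 ≤ ((l + 1 : ℕ) : ℝ) * 1 := by gcongr
    linarith
  have hll : Real.log (Real.log n) ≤ 2 * ((l + 1 : ℕ) : ℝ) := by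
    have e1 : Real.log (Real.log n) ≤ Real.log (2 * m) := Real.log_le_log (by linarith) hm4
    rw [Real.log_mul (by norm_num) (by positivity)] at e1
    have e2 : Real.log 2 ≤ Real.log m := Real.log_le_log (by norm_num) hmr
    linarith
  have hll0 : 0 ≤ Real.log (Real.log n) := Real.log_nonneg hlog1
  calc c₁ * c' * (c₁ / 4) ^ (1 / 2 : ℝ) / (2 ^ ((e : ℝ) + 1 / 2) * 2) * (n : ℝ) ^ (-(1 / 2 : ℝ)) *
        Real.log n ^ ((e : ℝ) + 1 / 2) * Real.log (Real.log n)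
      ≤ c₁ * c' * (c₁ / 4) ^ (1 / 2 : ℝ) / (2 ^ ((e : ℝ) + 1 / 2) * 2) * (n : ℝ) ^ (-(1 / 2 : ℝ)) *
        (2 ^ ((e : ℝ) + 1 / 2) * (m : ℝ) ^ ((e : ℝ) + 1 / 2)) * (2 * ((l + 1 : ℕ) : ℝ)) := by
        gcongr
    _ = c₁ * ((c₁ / 4) ^ (1 / 2 : ℝ) * (m : ℝ) ^ (1 / 2 : ℝ) * (n : ℝ) ^ (-(1 / 2 : ℝ))) *
        (c' * ((l + 1 : ℕ) : ℝ) * (m : ℝ) ^ e) := by
        rw [h6]
        field_simp
    _ ≤ c₁ * (2 : ℝ) ^ (-(1 / 2 * (m : ℝ))) * (Shp e m₀ m).card := by gcongr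
    _ = c₁ * (2 : ℝ) ^ ((1 / 2 - r) * m₀) * (2 : ℝ) ^ (-(m : ℝ) / 2) * (Shp e m₀ m).card := by
        rw [← h7, hr, sub_self, zero_mul, Real.rpow_zero, mul_one]

end Pool.Agent.Helper16.SB
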