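import Pool.Agent.Helper60.SB.Defs4
import Pool.Agent.Helper30.SB.M10
import Pool.Agent.Helper5.SB.U8
import Pool.Agent.Helper22.SB.U12

/-!
Module M5 of MP_7fc85e_an, stage 3A: sup bound for the block operators.
-/

open Finset MeasureTheory
open scoped ENNReal Real
open Pool.Agent.Helper60.SB

namespace Pool.Agent.Helper16.SB

theorem card_shps (e m : ℕ) : ((shps (e + 1) m).card : ℝ) ≤ ((m : ℝ) + 1) ^ e := by
  have h1 : (shps (e + 1) m).card ≤ (Fintype.piFinset fun _ : Fin e => range (m + 1)).card := by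
    refine Finset.card_le_card_of_injOn (fun s i => s i.castSucc) ?_ ?_
    · intro s hs
      have hs' := (Finset.mem_filter.1 (Finset.mem_coe.1 hs)).1
      rw [Fintype.mem_piFinset] at hs'
      rw [Finset.mem_coe, Fintype.mem_piFinset]
      exact fun i => hs' _
    · intro s hs s' hs' hss
      have h1 := (Finset.mem_filter.1 (Finset.mem_coe.1 hs)).2
      have h2 := (Finset.mem_filter.1 (Finset.mem_coe.1 hs')).2
      rw [Fin.sum_univ_castSucc] at h1 h2
      have h3 : ∀ i : Fin e, s i.castSucc = s' i.castSucc := fun i => congrFun hss i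
      have h4 : ∑ i : Fin e, s i.castSucc = ∑ i : Fin e, s' i.castSucc :=
        Finset.sum_congr rfl fun i _ => h3 i
      funext j
      refine Fin.lastCases ?_ (fun i => h3 i) j
      omega
  have h2 : (Fintype.piFinset fun _ : Fin e => range (m + 1)).card = (m + 1) ^ e := by
    rw [Fintype.card_piFinset]
    simp
  rw [h2] at h1
  exact_mod_cast h1

theorem upol_continuous (M : ℤ → ℂ) (b : ℕ) : Continuous (upol M b) := by
  unfold upol
  fun_prop

theorem upol_periodic (M : ℤ → ℂ) (b : ℕ) (x : ℝ) : upol M b (x + 2 * π) = upol M b x := by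
  unfold upol
  refine Finset.sum_congr rfl fun k _ => ?_
  congr 1
  have : Complex.I * (k : ℂ) * ((x + 2 * π : ℝ) : ℂ) =
      Complex.I * (k : ℂ) * (x : ℂ) + k * (2 * π * Complex.I) := by
    push_cast
    ring
  rw [this, Complex.exp_add, Complex.exp_int_mul_two_pi_mul_I, mul_one]

theorem upol_norm_shift (M : ℤ → ℂ) (b : ℕ) (x : ℝ) :
    ∫ y, ‖upol M b (x - y)‖ ∂tor1 = ∫ y, ‖upol M b y‖ ∂tor1 := by
  have hint : ∀ f : ℝ → ℝ, ∫ y, f y ∂tor1 = (2 * π)⁻¹ * ∫ y in (0 : ℝ)..(2 * π), f y := by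
    intro f
    unfold tor1
    rw [integral_smul_measure, ENNReal.toReal_inv, ENNReal.toReal_ofReal Real.two_pi_pos.le,
      intervalIntegral.integral_of_le Real.two_pi_pos.le, ← integral_Ico_eq_integral_Ioc,
      smul_eq_mul]
  rw [hint, hint]
  congr 1
  have hper : Function.Periodic (fun t => ‖upol M b t‖) (2 * π) := by
    intro t
    show ‖upol M b (t + 2 * π)‖ = _
    rw [upol_periodic]
  have h1 : ∫ y in (0 : ℝ)..(2 * π), ‖upol M b (x - y)‖ =
      ∫ y in (x - 2 * π)..(x - 0), ‖upol M b y‖ :=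
    intervalIntegral.integral_comp_sub_left (fun t => ‖upol M b t‖) x
  rw [h1]
  have h2 := hper.intervalIntegral_add_eq (x - 2 * π) 0
  have e1 : x - 2 * π + 2 * π = x - 0 := by ring
  rw [e1, zero_add] at h2
  exact h2

theorem kernel_norm {d : ℕ} (M : ℕ → ℤ → ℂ) (C : ℝ) (hM : MulFam M C) (s : Fin d → ℕ)
    (x : Fin d → ℝ) :
    ∫ y, ‖∏ j, upol (M (s j)) (s j + 1) (x j - y j)‖ ∂(tor d) ≤ C ^ d := by
  have := Pool.Agent.Helper22.SB.prob1
  have e : (fun y : Fin d → ℝ => ‖∏ j, upol (M (s j)) (s j + 1) (x j - y j)‖) =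
      fun y => ∏ j, ‖upol (M (s j)) (s j + 1) (x j - y j)‖ := by
    funext y
    rw [norm_prod]
  rw [e]
  have h := integral_fintype_prod_eq_prod (𝕜 := ℝ) (ι := Fin d) (E := fun _ => ℝ)
    (fun j t => ‖upol (M (s j)) (s j + 1) (x j - t)‖) (μ := fun _ => tor1)
  unfold tor
  rw [h]
  simp_rw [upol_norm_shift]
  calc ∏ j, ∫ y, ‖upol (M (s j)) (s j + 1) y‖ ∂tor1 ≤ ∏ _j : Fin d, C :=
        Finset.prod_le_prod (fun j _ => integral_nonneg fun y => norm_nonneg _)
          fun j _ => hM.2.2 (s j)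
    _ = C ^ d := by simp

theorem cco_yb {e : ℕ} (M : ℕ → ℤ → ℂ) (m : ℕ)
    (h : (Fin (e + 1) → ℕ) → (Fin (e + 1) → ℝ) → ℂ) (k : Qs (e + 1) m) :
    cco (yb M m h) k = ∑ s ∈ shps (e + 1) m, (∏ j, M (s j) ((k : Fin (e + 1) → ℤ) j)) *
      fc (h s) k := by
  unfold cco yb
  simp only [Bool.false_eq_true, if_false, if_true]
  exact Complex.re_add_im _

theorem block_sum {e : ℕ} (M : ℕ → ℤ → ℂ) (C : ℝ) (hM : MulFam M C) (m : ℕ)
    (s : Fin (e + 1) → ℕ) (hs : s ∈ shps (e + 1) m) (F : (Fin (e + 1) → ℤ) → ℂ) :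
    ∑ k ∈ Qs (e + 1) m, (∏ j, M (s j) (k j)) * F k =
      ∑ k ∈ Fintype.piFinset (fun j => Finset.Icc (-2 ^ (s j + 1) : ℤ) (2 ^ (s j + 1))),
        (∏ j, M (s j) (k j)) * F k := by
  have hs' : ∑ j, s j = m := (Finset.mem_filter.1 hs).2
  have hlev : ∀ k : Fin (e + 1) → ℤ, (∏ j, M (s j) (k j)) ≠ 0 → ∀ j, lev k j = s j ∨
      lev k j = s j + 1 := by
    intro k hk j
    by_contra hcon
    push Not at hcon
    apply hk
    refine Finset.prod_eq_zero (Finset.mem_univ j) ?_
    exact hM.1 _ _ hcon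
  rw [← Finset.sum_filter_of_ne (s := Qs (e + 1) m) (p := fun k => (∏ j, M (s j) (k j)) ≠ 0)
      (fun k _ h0 h1 => h0 (by rw [h1, zero_mul])),
    ← Finset.sum_filter_of_ne (s := Fintype.piFinset _) (p := fun k => (∏ j, M (s j) (k j)) ≠ 0)
      (fun k _ h0 h1 => h0 (by rw [h1, zero_mul]))]
  congr 1
  ext k
  rw [Finset.mem_filter, Finset.mem_filter]
  refine and_congr_left fun hk => ?_
  have hl := hlev k hk
  constructor
  · intro _
    rw [Fintype.mem_piFinset]
    intro j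
    have h1 := natAbs_lt_lev k j
    have h2 : (k j).natAbs < 2 ^ (s j + 1) := by
      refine lt_of_lt_of_le h1 (Nat.pow_le_pow_right (by norm_num) ?_)
      rcases hl j with h | h <;> omega
    have h3 : ((k j).natAbs : ℤ) < 2 ^ (s j + 1) := by exact_mod_cast h2
    rw [Finset.mem_Icc]
    refine abs_le.1 ?_
    rw [Int.abs_eq_natAbs]
    exact h3.le
  · intro _
    rw [Pool.Agent.Helper30.SB.mem_Qs]
    have h1 : m ≤ ∑ j, lev k j := by
      rw [← hs']
      refine Finset.sum_le_sum fun j _ => ?_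
      rcases hl j with h | h <;> omega
    have h2 : ∑ j, lev k j ≤ m + (e + 1) := by
      calc ∑ j, lev k j ≤ ∑ j, (s j + 1) := by
            refine Finset.sum_le_sum fun j _ => ?_
            rcases hl j with h | h <;> omega
        _ = m + (e + 1) := by
            rw [Finset.sum_add_distrib, hs']
            simp
    exact ⟨∑ j, lev k j - m, by omega, by omega⟩

theorem block_eq {e : ℕ} (M : ℕ → ℤ → ℂ) (s : Fin (e + 1) → ℕ) (g : (Fin (e + 1) → ℝ) → ℂ)
    (hg : Integrable g (tor (e + 1))) (x : Fin (e + 1) → ℝ) :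
    ∑ k ∈ Fintype.piFinset (fun j => Finset.Icc (-2 ^ (s j + 1) : ℤ) (2 ^ (s j + 1))),
        (∏ j, M (s j) (k j)) * (fc g k * ex k x) =
      ∫ y, g y * ∏ j, upol (M (s j)) (s j + 1) (x j - y j) ∂(tor (e + 1)) := by
  have h1 : ∀ y : Fin (e + 1) → ℝ, ∏ j, upol (M (s j)) (s j + 1) (x j - y j) =
      ∑ k ∈ Fintype.piFinset (fun j => Finset.Icc (-2 ^ (s j + 1) : ℤ) (2 ^ (s j + 1))),
        (∏ j, M (s j) (k j)) * (ex (-k) y * ex k x) := by
    intro y
    unfold upol
    rw [Finset.prod_univ_sum]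
    refine Finset.sum_congr rfl fun k _ => ?_
    rw [Finset.prod_mul_distrib]
    congr 1
    rw [Pool.Agent.Helper5.SB.ex_eq_prod, Pool.Agent.Helper5.SB.ex_eq_prod,
      ← Finset.prod_mul_distrib]
    refine Finset.prod_congr rfl fun j _ => ?_
    rw [← Complex.exp_add]
    congr 1
    simp only [Pi.neg_apply]
    push_cast
    ring
  simp_rw [h1, Finset.mul_sum]
  rw [integral_finsetSum]
  · refine Finset.sum_congr rfl fun k _ => ?_
    unfold fc
    have h2 : ∀ y, g y * ((∏ j, M (s j) (k j)) * (ex (-k) y * ex k x)) =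
        ((∏ j, M (s j) (k j)) * ex k x) * (g y * ex (-k) y) := by
      intro y
      ring
    simp_rw [h2]
    rw [integral_const_mul]
    ring
  · intro k _
    have h2 : (fun y => g y * ((∏ j, M (s j) (k j)) * (ex (-k) y * ex k x))) =
        fun y => ((∏ j, M (s j) (k j)) * ex k x) * (g y * ex (-k) y) := by
      funext y
      ring
    rw [h2]
    exact (Pool.Agent.Helper5.SB.integrable_fc hg k).const_mul _

theorem yb_sup (e : ℕ) (M : ℕ → ℤ → ℂ) (C : ℝ) (hM : MulFam M C) :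
    ∃ C' ≥ 1, ∀ (m : ℕ) (h : (Fin (e + 1) → ℕ) → (Fin (e + 1) → ℝ) → ℂ) (A : ℝ), 0 ≤ A →
      (∀ s, AEStronglyMeasurable (h s) (tor (e + 1))) → (∀ s x, ‖h s x‖ ≤ A) →
      ∀ x, ‖TT (Qs (e + 1) m) (yb M m h) x‖ ≤ C' * A * ((m : ℝ) + 1) ^ e := by
  have hC : 0 ≤ C := (norm_nonneg _).trans (hM.2.1 0 0)
  have := Pool.Agent.Helper5.SB.isProb_tor (e + 1)
  refine ⟨1 + C ^ (e + 1), by linarith [pow_nonneg hC (e + 1)], ?_⟩
  intro m h A hA hmeas hbd x
  have hint : ∀ s, Integrable (h s) (tor (e + 1)) := fun s =>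
    (MemLp.of_bound (hmeas s) A (Filter.Eventually.of_forall (hbd s))).integrable le_top
  have h1 : TT (Qs (e + 1) m) (yb M m h) x = ∑ s ∈ shps (e + 1) m,
      ∫ y, h s y * ∏ j, upol (M (s j)) (s j + 1) (x j - y j) ∂(tor (e + 1)) := by
    unfold TT
    simp_rw [cco_yb, Finset.sum_mul]
    rw [Finset.sum_comm]
    refine Finset.sum_congr rfl fun s hs => ?_
    rw [← block_eq M s (h s) (hint s) x, ← block_sum M C hM m s hs (fun k => fc (h s) k * ex k x),
      ← Finset.sum_coe_sort (Qs (e + 1) m)]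
    refine Finset.sum_congr rfl fun k _ => ?_
    ring
  have h2 : ∀ s, ‖∫ y, h s y * ∏ j, upol (M (s j)) (s j + 1) (x j - y j) ∂(tor (e + 1))‖ ≤
      A * C ^ (e + 1) := by
    intro s
    refine (norm_integral_le_integral_norm _).trans ?_
    have hk : Continuous (fun y : Fin (e + 1) → ℝ =>
        ∏ j, upol (M (s j)) (s j + 1) (x j - y j)) := by
      refine continuous_finsetProd _ fun j _ => ?_
      exact (upol_continuous _ _).comp (continuous_const.sub (continuous_apply j))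
    have hki : Integrable (fun y : Fin (e + 1) → ℝ =>
        ∏ j, upol (M (s j)) (s j + 1) (x j - y j)) (tor (e + 1)) := by
      have := Pool.Agent.Helper22.SB.prob1
      refine Integrable.fintype_prod (f := fun j t => upol (M (s j)) (s j + 1) (x j - t)) ?_
      intro j
      have hb : ∀ t, ‖upol (M (s j)) (s j + 1) (x j - t)‖ ≤
          ∑ k ∈ Finset.Icc (-2 ^ (s j + 1) : ℤ) (2 ^ (s j + 1)), ‖M (s j) k‖ := by
        intro t
        unfold upol
        refine (norm_sum_le _ _).trans (Finset.sum_le_sum fun k _ => ?_)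
        rw [norm_mul]
        have : Complex.I * (k : ℂ) * ((x j - t : ℝ) : ℂ) =
            (((k : ℝ) * (x j - t) : ℝ) : ℂ) * Complex.I := by
          push_cast
          ring
        rw [this, Complex.norm_exp_ofReal_mul_I, mul_one]
      exact (MemLp.of_bound ((upol_continuous _ _).comp
        (continuous_const.sub continuous_id)).aestronglyMeasurable _
          (Filter.Eventually.of_forall hb)).integrable le_top
    calc ∫ y, ‖h s y * ∏ j, upol (M (s j)) (s j + 1) (x j - y j)‖ ∂(tor (e + 1))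
        ≤ ∫ y, A * ‖∏ j, upol (M (s j)) (s j + 1) (x j - y j)‖ ∂(tor (e + 1)) := by
          refine integral_mono_of_nonneg (Filter.Eventually.of_forall fun y => norm_nonneg _)
            (hki.norm.const_mul A) (Filter.Eventually.of_forall fun y => ?_)
          simp only
          rw [norm_mul]
          exact mul_le_mul_of_nonneg_right (hbd s y) (norm_nonneg _)
      _ = A * ∫ y, ‖∏ j, upol (M (s j)) (s j + 1) (x j - y j)‖ ∂(tor (e + 1)) :=
          integral_const_mul _ _
      _ ≤ A * C ^ (e + 1) := mul_le_mul_of_nonneg_left (kernel_norm M C hM s x) hA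
  rw [h1]
  calc ‖∑ s ∈ shps (e + 1) m,
      ∫ y, h s y * ∏ j, upol (M (s j)) (s j + 1) (x j - y j) ∂(tor (e + 1))‖
      ≤ ∑ s ∈ shps (e + 1) m, A * C ^ (e + 1) :=
        (norm_sum_le _ _).trans (Finset.sum_le_sum fun s _ => h2 s)
    _ = (shps (e + 1) m).card * (A * C ^ (e + 1)) := by
        rw [Finset.sum_const, nsmul_eq_mul]
    _ ≤ ((m : ℝ) + 1) ^ e * (A * C ^ (e + 1)) :=
        mul_le_mul_of_nonneg_right (card_shps e m) (mul_nonneg hA (pow_nonneg hC _))
    _ ≤ (1 + C ^ (e + 1)) * A * ((m : ℝ) + 1) ^ e := by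
        have : 0 ≤ ((m : ℝ) + 1) ^ e * A := by positivity
        nlinarith
  
end Pool.Agent.Helper16.SB
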